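import Pool.Agent.Lib_helper52.EPS.Defs

set_option autoImplicit false

namespace Pool.Agent.EPS

open MeasureTheory Set Filter Topology

theorem ga_pos (x : ℝ) : 0 < ga x := Real.exp_pos _

theorem ga_le (x : ℝ) : ga x ≤ 1 := by
  unfold ga
  rw [Real.exp_le_one_iff]
  have h1 := Real.pi_pos
  have h2 := sq_nonneg x
  have : 0 ≤ Real.pi * x ^ 2 := mul_nonneg h1.le h2
  linarith

theorem ga_cont : Continuous ga := by
  unfold ga
  fun_prop

theorem a0_eq : ga = fun x : ℝ => Real.exp (-Real.pi * x ^ 2) := by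
  funext x
  unfold ga
  congr 1
  ring

theorem ga_int : Integrable ga ∧ ∫ x, ga x = 1 := by
  rw [a0_eq]
  refine ⟨integrable_exp_neg_mul_sq Real.pi_pos, ?_⟩
  rw [integral_gaussian, div_self Real.pi_pos.ne', Real.sqrt_one]

theorem a0_sq : Integrable (fun x : ℝ => x ^ 2 * ga x) := by
  have h := integrable_rpow_mul_exp_neg_mul_sq Real.pi_pos (s := 2) (by norm_num)
  have e : (fun x : ℝ => x ^ 2 * ga x) =
      fun x : ℝ => x ^ (2 : ℝ) * Real.exp (-Real.pi * x ^ 2) := by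
    funext x
    rw [a0_eq]
    simp only [Real.rpow_two]
  rw [e]
  exact h

theorem ga_int1 : Integrable (fun x : ℝ => (1 + x ^ 2) * ga x) := by
  have e : (fun x : ℝ => (1 + x ^ 2) * ga x) = fun x : ℝ => ga x + x ^ 2 * ga x := by
    funext x
    ring
  rw [e]
  exact ga_int.1.add a0_sq

theorem ga_int2 : Integrable (fun p : ℝ × ℝ => (1 + p.1 ^ 2 + p.2 ^ 2) * (ga p.1 * ga p.2)) := by
  have h1 : Integrable (fun p : ℝ × ℝ => ((1 + p.1 ^ 2) * ga p.1) * ga p.2) :=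
    ga_int1.mul_prod ga_int.1
  have h2 : Integrable (fun p : ℝ × ℝ => ga p.1 * (p.2 ^ 2 * ga p.2)) :=
    ga_int.1.mul_prod a0_sq
  have e : (fun p : ℝ × ℝ => (1 + p.1 ^ 2 + p.2 ^ 2) * (ga p.1 * ga p.2)) =
      fun p : ℝ × ℝ => ((1 + p.1 ^ 2) * ga p.1) * ga p.2 + ga p.1 * (p.2 ^ 2 * ga p.2) := by
    funext p
    ring
  rw [e]
  exact h1.add h2

theorem ga_rot (c s : ℝ) (h : c ^ 2 + s ^ 2 = 1) (x y : ℝ) :
    ga (c * x - s * y) * ga (s * x + c * y) = ga x * ga y := by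
  unfold ga
  rw [← Real.exp_add, ← Real.exp_add]
  congr 1
  have e : (c * x - s * y) ^ 2 + (s * x + c * y) ^ 2 = (c ^ 2 + s ^ 2) * (x ^ 2 + y ^ 2) := by ring
  rw [h, one_mul] at e
  have : Real.pi * ((c * x - s * y) ^ 2 + (s * x + c * y) ^ 2) = Real.pi * (x ^ 2 + y ^ 2) := by
    rw [e]
  linarith

end Pool.Agent.EPS
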